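import Mathlib
import Pool.Agent.H14.MidGap

set_option autoImplicit false

namespace Pool.Agent.Results.MP_8cb698_co.Assoc

open Pool.Agent.H14.MidGap in
theorem result (n : ℕ) (q : ℝ) (hq : 0 < q) (A B : Finset (Equiv.Perm (Fin n)))
    (hA : StrongUp A) (hB : StrongUp B) : mu q A * mu q B ≤ mu q (A ∩ B) :=
  main n q hq A B hA hB

end Pool.Agent.Results.MP_8cb698_co.Assoc
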